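import Pool.Agent.R868.Stab.Stable

/-!
# MP_4d8c35_co, Q1: negative answer

For every `c` there are only finitely many (3,0)-stable graphs with independence number at
least `n / 2 - c`; in particular no sequence as asked for in the question exists.
-/

set_option autoImplicit false

namespace Pool.Agent.Results.MP_4d8c35_co.BoundedOrder

open R868.Stab Filter

/-- For every real `c` the orders of the `(3, 0)`-stable graphs `G` with
`indepNum G ≥ |V| / 2 - c` are bounded, and there is no constant `c > 0` with a sequence of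
`(3, 0)`-stable graphs whose orders tend to infinity and whose independence numbers are at
least `n / 2 - c`. -/
theorem result :
    (∀ c : ℝ, ∃ N : ℕ, ∀ (V : Type) [Fintype V] (G : SimpleGraph V), KLStable 3 0 G →
      (Fintype.card V : ℝ) / 2 - c ≤ (G.indepNum : ℝ) → Fintype.card V ≤ N) ∧
    ¬ ∃ c : ℝ, 0 < c ∧ ∃ (n : ℕ → ℕ) (G : ∀ i, SimpleGraph (Fin (n i))),
      Tendsto n atTop atTop ∧ (∀ i, KLStable 3 0 (G i)) ∧
      ∀ i, (n i : ℝ) / 2 - c ≤ ((G i).indepNum : ℝ) := by
  have main : ∀ c : ℝ, ∃ N : ℕ, ∀ (V : Type) [Fintype V] (G : SimpleGraph V),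
      KLStable 3 0 G → (Fintype.card V : ℝ) / 2 - c ≤ (G.indepNum : ℝ) →
      Fintype.card V ≤ N := by
    intro c
    obtain ⟨d, hd⟩ := exists_nat_ge (2 * c)
    obtain ⟨R, hR⟩ := stable_bound d
    refine ⟨max 3 R, ?_⟩
    intro V _ G hG hc
    classical
    rcases Nat.lt_or_ge (Fintype.card V) 3 with h | h
    · omega
    · refine le_trans ?_ (le_max_right _ _)
      refine hR V G G.indepNum (ind_card_le G) (fun S hS => hG.avoid h S hS) ?_
      have h2 : (Fintype.card V : ℝ) ≤ 2 * (G.indepNum : ℝ) + (d : ℝ) := by linarith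
      exact_mod_cast h2
  refine ⟨main, ?_⟩
  rintro ⟨c, _, n, G, ht, hs, hc⟩
  obtain ⟨N, hN⟩ := main c
  obtain ⟨i, hi⟩ := (ht.eventually (eventually_gt_atTop N)).exists
  have h3 := hN (Fin (n i)) (G i) (hs i) (by simpa using hc i)
  rw [Fintype.card_fin] at h3
  omega

end Pool.Agent.Results.MP_4d8c35_co.BoundedOrder
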